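import Pool.Agent.H93.BL.Targets

/-!
# Local form of the map of the interval system (module L3)
-/

namespace Pool.Agent.H79.BL.L3

open MeasureTheory Set Pool.Agent.H93.BL

/-- Local form of the map. -/
theorem l3 (hL1 : T_L1) (hG5b : T_G5b) : T_L3 := by
  intro ι _ P E C k t k' t' hst
  obtain ⟨hinn, τ, hhit, hx', hv'⟩ := hst
  have hhit : P.Hit (P.lpt E C k t) k.1.2 k'.1.1 τ := hhit
  have hx' : P.lpt E C k' t' = P.lpt E C k t + (τ : ℂ) * k.1.2 := hx'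
  have hv' : k'.1.2 = P.refl k'.1.1 k.1.2 := hv'
  obtain ⟨hseg, hnorm, hip⟩ := hinn
  have hseg : P.lpt E C k t ∈ openSegment ℝ (P.p k.1.1) (P.q k.1.1) := hseg
  have hnorm : ‖k.1.2‖ = 1 := hnorm
  have hip : 0 < ip k.1.2 (P.n k.1.1) := hip
  obtain ⟨hk1, hk2, hk3, hk4⟩ := hL1 ι P E C k
  obtain ⟨hk1', hk2', hk3', hk4'⟩ := hL1 ι P E C k'
  obtain ⟨ε1, hε1, hG⟩ := hG5b ι P k.1.1 (P.lpt E C k t) k.1.2 k'.1.1 τ hseg hip hhit
  have hab := (hk2 t).2 hseg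
  refine ⟨min (ε1 * ip k.1.2 (P.n k.1.1)) (min (t - P.la E C k) (P.lb E C k - t)), ?_, ?_⟩
  · refine lt_min (mul_pos hε1 hip) (lt_min (by linarith [hab.1]) (by linarith [hab.2]))
  intro δ hδ
  have hδ1 : |δ| < ε1 * ip k.1.2 (P.n k.1.1) := lt_of_lt_of_le hδ (min_le_left _ _)
  have hδ2 : |δ| < t - P.la E C k :=
    lt_of_lt_of_le hδ ((min_le_right _ _).trans (min_le_left _ _))
  have hδ3 : |δ| < P.lb E C k - t :=
    lt_of_lt_of_le hδ ((min_le_right _ _).trans (min_le_right _ _))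
  rw [abs_lt] at hδ2 hδ3
  have hsegδ : P.lpt E C k (t + δ) ∈ openSegment ℝ (P.p k.1.1) (P.q k.1.1) :=
    (hk2 (t + δ)).1 ⟨by linarith [hδ2.1], by linarith [hδ3.2]⟩
  have hdist : dist (P.lpt E C k (t + δ)) (P.lpt E C k t) < ε1 := by
    rw [hk4, show t + δ - t = δ by ring, div_lt_iff₀ hip]
    exact hδ1
  obtain ⟨τ', hτ'⟩ := hG _ hsegδ k.1.2 hdist (by rw [dist_self]; exact hε1)
  -- the new end point
  have hend' : P.lpt E C k (t + δ) + (τ' : ℂ) * k.1.2 ∈ openSegment ℝ (P.p k'.1.1) (P.q k'.1.1) :=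
    hτ'.2.2.1
  have hend : P.lpt E C k' t' ∈ openSegment ℝ (P.p k'.1.1) (P.q k'.1.1) := by
    rw [hx']; exact hhit.2.2.1
  obtain ⟨s, -, -, hs⟩ := (P.mem_openSegment_iff _ _).1 hend
  obtain ⟨s', -, -, hs'⟩ := (P.mem_openSegment_iff _ _).1 hend'
  have e1 := P.cr_refl_line k'.1.1 k.1.2 s
  have e2 := P.cr_refl_line k'.1.1 k.1.2 s'
  rw [← hs, ← hv', hk1'] at e1
  rw [← hs', ← hv'] at e2
  have e3 : cr k.1.2 (P.lpt E C k (t + δ) + (τ' : ℂ) * k.1.2) = t + δ := by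
    rw [cr_add_right, cr_smul_right, cr_self, hk1]; ring
  have e4 : cr k.1.2 (P.lpt E C k' t') = t := by
    rw [hx', cr_add_right, cr_smul_right, cr_self, hk1]; ring
  rw [e3] at e2
  rw [e4] at e1
  have e5 : cr k'.1.2 (P.lpt E C k (t + δ) + (τ' : ℂ) * k.1.2) = t' - δ := by linarith
  have e6 : P.lpt E C k' (t' - δ) = P.lpt E C k (t + δ) + (τ' : ℂ) * k.1.2 := by
    rw [← e5]; exact hk3' _ hend'
  exact ⟨⟨hsegδ, hnorm, hip⟩, τ', hτ', e6, hv'⟩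

end Pool.Agent.H79.BL.L3
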