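import Pool.Agent.H93.BL.Targets

/-!
# A countable set of directions is met by a null set (module M8)
-/

namespace Pool.Agent.H79.BL.M8

open MeasureTheory Set Pool.Agent.H93.BL

/-- A countable set of directions is met by a null set of phase points. -/
theorem m8 (hM0 : T_M0) : T_M8 := by
  intro ι P D hD i
  have h0 : {z : ℝ × ℝ | P.dir (i, z) ∈ D} = ⋃ d ∈ D, {z : ℝ × ℝ | P.dir (i, z) = d} := by
    ext z; simp
  rw [h0, measure_biUnion_null_iff hD]
  intro d _
  rw [(hM0 ι P i _).1]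
  rcases Set.eq_empty_or_nonempty ({z : ℝ × ℝ | P.dir (i, z) = d} ∩ P.box i) with he | ⟨z0, hz0, hb0⟩
  · rw [he, measure_empty]
  · refine measure_mono_null (t := univ ×ˢ {z0.2}) ?_ ?_
    · rintro z ⟨hz, hb⟩
      refine ⟨mem_univ _, ?_⟩
      have h1 := P.ip_dir_u (i, z)
      have h2 := P.ip_dir_u (i, z0)
      have h3 : P.dir (i, z) = P.dir (i, z0) := by
        rw [mem_setOf_eq] at hz hz0; rw [hz, hz0]
      rw [h3, h2] at h1
      have h4 : Real.sin z.2 = Real.sin z0.2 := by
        simp only at h1; linarith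
      exact Real.injOn_sin ⟨hb.2.1.le, hb.2.2.le⟩ ⟨hb0.2.1.le, hb0.2.2.le⟩ h4
    · rw [Measure.volume_eq_prod, Measure.prod_prod, Real.volume_singleton, mul_zero]

end Pool.Agent.H79.BL.M8
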