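import Pool.Agent.H93.BL.Targets

/-!
# The killing step (module K3)
-/

namespace Pool.Agent.H79.BL.K3

open MeasureTheory Set Pool.Agent.H93.BL

variable {ι : Type}

lemma sum_cancel [Fintype ι] (a b : ι → ENNReal) (h : ∀ i, a i ≤ b i) (hs : ∑ i, b i ≤ ∑ i, a i)
    (hf : ∀ i, a i ≠ ⊤) (i : ι) : b i ≤ a i := by
  classical
  rw [← Finset.add_sum_erase Finset.univ b (Finset.mem_univ i),
    ← Finset.add_sum_erase Finset.univ a (Finset.mem_univ i)] at hs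
  have h1 : ∑ x ∈ Finset.univ.erase i, a x ≤ ∑ x ∈ Finset.univ.erase i, b x :=
    Finset.sum_le_sum fun x _ => h x
  have h2 : ∑ x ∈ Finset.univ.erase i, a x ≠ ⊤ := ENNReal.sum_ne_top.2 fun x _ => hf x
  have h3 : b i + ∑ x ∈ Finset.univ.erase i, a x ≤ a i + ∑ x ∈ Finset.univ.erase i, a x :=
    le_trans (add_le_add le_rfl h1) hs
  exact (ENNReal.add_le_add_iff_right h2).1 h3

/-- the momentum -/
noncomputable def F (P : Polygon ι) (w : ℂ) (ω : ℝ) (z : ι × ℝ × ℝ) : ℝ :=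
  ip (w + (ω : ℂ) * (Complex.I * P.pos z)) (P.dir z)

lemma continuous_F (P : Polygon ι) (w : ℂ) (ω : ℝ) (i : ι) :
    Continuous fun z : ℝ × ℝ => F P w ω (i, z) := by
  unfold F ip Polygon.pos Polygon.dir
  fun_prop

/-- The killing step. -/
theorem k3 (hM0 : T_M0) (hM1 : T_M1) (hM5 : T_M5) (hM6 : T_M6) (hK1 : T_K1) (hK2 : T_K2)
    (hB3 : T_B3) : T_K3 := by
  classical
  intro ι _ P E X hX hinv hE w ω hnn j hj
  by_cases hjE : j ∈ E
  · exact hE j hjE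
  -- notation
  set B : ℝ → ι → Set (ℝ × ℝ) := fun c i => {z | z ∉ X i ∧ c < F P w ω (i, z)} with hB
  set TB : ℝ → ι → Set (ℝ × ℝ) := fun c i => {z | ∃ z', P.Step (i, z) z' ∧ z'.2 ∈ B c z'.1} with hTB
  set N : ι → Set (ℝ × ℝ) := fun k => if k ∈ E then (X k)ᶜ else ∅ with hN
  have hN0 : ∀ i, P.liouville i (N i) = 0 := by
    intro i
    by_cases hi : i ∈ E
    · simp only [hN, hi, if_true]; exact hE i hi
    · simp only [hN, hi, if_false, measure_empty]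
  have hNpre := (hM6 ι P N hN0).1
  have hfin : ∀ i (S : Set (ℝ × ℝ)), P.liouville i S ≠ ⊤ := fun i S =>
    ((measure_mono (subset_univ S)).trans_lt ((hM0 ι P i ∅).2.2.2)).ne
  have hBm : ∀ c i, MeasurableSet (B c i) := by
    intro c i
    exact (hX i).compl.inter ((continuous_F P w ω i).measurable measurableSet_Ioi)
  -- the good points
  have hgood : ∀ i, ∀ᵐ z ∂(P.liouville i), ∃ z', P.Step (i, z) z' ∧
      (z ∉ X i → z'.2 ∉ X z'.1 ∧ z'.1 ∉ E) := by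
    intro i
    have h3 : ∀ᵐ z ∂(P.liouville i), ¬ ∃ z', P.Step (i, z) z' ∧ z'.2 ∈ N z'.1 :=
      compl_mem_ae_iff.2 (hNpre i)
    filter_upwards [(hM1 ι P i).1, hinv i, h3] with z h1 h2 h3
    obtain ⟨z', hz'⟩ := h1
    refine ⟨z', hz', fun hz => ?_⟩
    have h4 : z'.2 ∉ X z'.1 := fun h => hz (h2.1 ⟨z', hz', h⟩)
    refine ⟨h4, fun h5 => h3 ⟨z', hz', ?_⟩⟩
    simp only [hN, h5, if_true]; exact h4
  have hmono : ∀ z z', P.Step z z' → z'.1 ∉ E → F P w ω z ≤ F P w ω z' := by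
    intro z z' hs hE'
    have h1 := hK1 ι P w ω z z' hs
    have h2 : 0 < Real.cos z'.2.2 := P.cos_pos_of_phase hs.2.1
    have h3 := hnn z'.1 hE' (P.pos z') (openSegment_subset_segment _ _ _ (P.pos_mem hs.2.1))
    unfold F
    rw [h1]
    have : 0 ≤ 2 * Real.cos z'.2.2 * ip (w + (ω : ℂ) * (Complex.I * P.pos z')) (P.n z'.1) := by
      positivity
    linarith
  -- (1)
  have hsub : ∀ c i, B c i ≤ᵐ[P.liouville i] TB c i := by
    intro c i
    filter_upwards [hgood i] with z hz hzB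
    obtain ⟨z', hz', hg⟩ := hz
    obtain ⟨h1, h2⟩ := hg hzB.1
    exact ⟨z', hz', h1, lt_of_lt_of_le hzB.2 (hmono _ _ hz' h2)⟩
  -- (2)
  have heq : ∀ c i, B c i =ᵐ[P.liouville i] TB c i := by
    intro c i
    refine ae_eq_of_ae_subset_of_measure_ge (hsub c i) ?_ (hBm c i).nullMeasurableSet (hfin i _)
    exact sum_cancel (fun i => P.liouville i (B c i)) (fun i => P.liouville i (TB c i))
      (fun i => measure_mono_ae (hsub c i)) (hM5 ι P (B c) (hBm c)) (fun i => hfin i _) i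
  -- (3)
  have hall : ∀ i, ∀ᵐ z ∂(P.liouville i), ∀ c : ℚ, z ∈ TB c i → z ∈ B c i := by
    intro i
    rw [ae_all_iff]
    intro c
    filter_upwards [heq c i] with z hz hz'
    exact (iff_of_eq hz).2 hz'
  have hN1 : ∀ i, P.liouville i {z | z ∉ X i ∧ ∃ z', P.Step (i, z) z' ∧ z'.1 = j} = 0 := by
    intro i
    refine measure_mono_null ?_ (ae_iff.1 ((hgood i).and (hall i)))
    rintro z ⟨hzX, z', hz', hz'j⟩ ⟨⟨z'', hz'', hg⟩, hc⟩
    have he : z'' = z' := (hB3 ι P (i, z) z'' z').1 hz'' hz'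
    subst he
    obtain ⟨h1, h2⟩ := hg hzX
    have hpos : F P w ω (i, z) < F P w ω z'' := by
      have h3 := hK1 ι P w ω (i, z) z'' hz'
      have h4 : 0 < Real.cos z''.2.2 := P.cos_pos_of_phase hz'.2.1
      have h5 : 0 < ip (w + (ω : ℂ) * (Complex.I * P.pos z'')) (P.n z''.1) := by
        have hj' := hK2 ι P w ω j (hnn j hjE) hj
        rw [hz'j]
        apply hj'
        rw [← hz'j]
        exact P.pos_mem hz'.2.1
      unfold F
      rw [h3]
      have : 0 < 2 * Real.cos z''.2.2 * ip (w + (ω : ℂ) * (Complex.I * P.pos z'')) (P.n z''.1) := by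
        positivity
      linarith
    obtain ⟨c, hc1, hc2⟩ := exists_rat_btwn hpos
    have h6 := hc c ⟨z'', hz', h1, hc2⟩
    exact absurd h6.2 (not_lt.2 hc1.le)
  -- (4)
  set N2 : ι → Set (ℝ × ℝ) := fun i =>
    {z | z ∉ X i ∧ ∃ z', P.Step (i, z) z' ∧ z'.1 = j} ∪
      {z | ¬ ((∃ z', P.Step (i, z) z' ∧ z'.2 ∈ X z'.1) ↔ z ∈ X i)} with hN2
  have hN20 : ∀ i, P.liouville i (N2 i) = 0 := fun i =>
    measure_union_null (hN1 i) (ae_iff.1 (hinv i))
  have hN2im := (hM6 ι P N2 hN20).2 j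
  have h7 : ∀ᵐ z ∂(P.liouville j), ¬ ∃ z', P.Step z' (j, z) ∧ z'.2 ∈ N2 z'.1 :=
    compl_mem_ae_iff.2 hN2im
  have h8 : ∀ᵐ z ∂(P.liouville j), z ∈ X j := by
    filter_upwards [(hM1 ι P j).2, h7] with z h1 h2
    obtain ⟨z', hz'⟩ := h1
    by_contra hz
    apply h2
    refine ⟨z', hz', ?_⟩
    by_cases h9 : (∃ y, P.Step (z'.1, z'.2) y ∧ y.2 ∈ X y.1) ↔ z'.2 ∈ X z'.1
    · left
      refine ⟨fun h => ?_, (j, z), hz', rfl⟩
      obtain ⟨y, hy, hyX⟩ := h9.2 h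
      have : y = (j, z) := (hB3 ι P z' y (j, z)).1 hy hz'
      subst this
      exact hz hyX
    · right; exact h9
  exact ae_iff.1 h8

end Pool.Agent.H79.BL.K3
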